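import Mathlib
import Pool.Agent.Lib.MP_63137b_co.Defs
import Pool.Agent.Lib.MP_63137b_co.Example2

/-!
Over every field of characteristic zero there is an irreducible multiarrangement `(A, μ)` in `K³`
with `μ ≥ 3` that admits a universal derivation and a flat `X ∈ L(A)` such that `(A_X, μ_X)`
admits no universal derivation. (`A` is the reflection arrangement `B₃` with multiplicity `5` on
`x_i = 0` and `3` on `x_i = ± x_j`; `X` is the line `x_0 = 0, x_1 = x_2`.)
-/

open Module Pool.Agent.Lib.MP_63137b_co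

namespace Pool.Agent.Results.MP_63137b_co.Disproof

theorem result (K : Type*) [Field K] [CharZero K] :
    ∃ (A : Set (Submodule K (Fin 3 → K))) (μ : Submodule K (Fin 3 → K) → ℕ)
      (X : Submodule K (Fin 3 → K)),
      A.Finite ∧ (∀ H ∈ A, IsCoatom H) ∧ IsIrreducibleArr A ∧ (∀ H ∈ A, 3 ≤ μ H) ∧
      (∃ θ : Der K (Fin 3 → K), IsUniversalDer A μ θ) ∧ InLattice A X ∧
      ¬ ∃ θ' : Der K ((Fin 3 → K) ⧸ X), IsUniversalDer (locArr A X) (locMult μ X) θ' :=
  ⟨arrB K, muB K, XB K, arrB_finite, arrB_coatom, arrB_irreducible, muB_ge,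
    ⟨_, universal_B⟩, XB_lattice, no_universal⟩

end Pool.Agent.Results.MP_63137b_co.Disproof
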