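import Mathlib
import Pool.Agent.Lib.MP_63137b_co.Defs
import Pool.Agent.Lib.MP_63137b_co.Main

/-!
If a multiarrangement `(A, μ)`, `μ ≥ 1`, over a field of characteristic zero admits a universal
derivation and the localization `A_X` at a flat `X` is irreducible, then `(A_X, μ_X)`, regarded
in `V / X`, admits a universal derivation.
-/

open Module Pool.Agent.Lib.MP_63137b_co

namespace Pool.Agent.Results.MP_63137b_co.IrreducibleLocalization

theorem result {K : Type*} [Field K] [CharZero K] {V : Type*} [AddCommGroup V] [Module K V]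
    [FiniteDimensional K V] (A : Set (Submodule K V)) (hfin : A.Finite)
    (hA : ∀ H ∈ A, IsCoatom H) (μ : Submodule K V → ℕ) (hμ : ∀ H ∈ A, 1 ≤ μ H)
    (hθ : ∃ θ : Der K V, IsUniversalDer A μ θ)
    (X : Submodule K V) (hX : InLattice A X) (hirr : IsIrreducibleArr (locArr A X)) :
    ∃ θ' : Der K (V ⧸ X), IsUniversalDer (locArr A X) (locMult μ X) θ' :=
  irreducible_localization hfin hA hμ hθ hX hirr

end Pool.Agent.Results.MP_63137b_co.IrreducibleLocalization
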